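import Pool.Agent.W758.AHC.Stm

set_option autoImplicit false

namespace Pool.Agent.W726.AHC

open Pool.Agent.W758.AHC

theorem lo3 : S_LO → S_LO2 → S_BIN → S_LO3 := by
  intro hLO hLO2 hBIN ι _ s w w0 u e X hw hu hX
  classical
  set S' : Finset ι := s.filter (fun i => u i ≠ 0) with hS'
  have hS's : S' ⊆ s := Finset.filter_subset _ _
  have ht : 1 ≤ S'.card := by
    obtain ⟨i, his, hi⟩ := hu
    exact Finset.card_pos.2 ⟨i, Finset.mem_filter.2 ⟨his, hi⟩⟩
  have hsum : ∀ (g : ι → ℚ) (x : Finset ι), ∑ i ∈ x ∩ S', g i + ∑ i ∈ x \ S', g i = ∑ i ∈ x, g i := by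
    intro g x
    exact Finset.sum_inter_add_sum_sdiff x S' g
  have hY : (X.image (fun x => x ∩ S')).card ≤ M0 S'.card := by
    apply hLO ι S' u e
    · intro i hi
      exact (Finset.mem_filter.1 hi).2
    · intro y hy
      obtain ⟨x, hx, rfl⟩ := Finset.mem_image.1 hy
      refine ⟨Finset.inter_subset_right, ?_⟩
      have h3 := (hX x hx).2.2
      have h4 := hsum u x
      have h5 : ∑ i ∈ x \ S', u i = 0 := by
        apply Finset.sum_eq_zero
        intro i hi
        have h6 := Finset.mem_sdiff.1 hi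
        by_contra h7
        exact h6.2 (Finset.mem_filter.2 ⟨(hX x hx).1 h6.1, h7⟩)
      rw [h5, add_zero] at h4
      rw [h4]; exact h3
  have hF : ∀ y ∈ X.image (fun x => x ∩ S'), (X.filter (fun x => x ∩ S' = y)).card ≤ SS (s \ S').card := by
    intro y _
    have hinj : ((X.filter (fun x => x ∩ S' = y)).image (fun x => x \ S')).card
        = (X.filter (fun x => x ∩ S' = y)).card := by
      apply Finset.card_image_of_injOn
      intro x hx x' hx' h
      have hx1 := (Finset.mem_filter.1 (Finset.mem_coe.1 hx)).2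
      have hx2 := (Finset.mem_filter.1 (Finset.mem_coe.1 hx')).2
      have h' : x \ S' = x' \ S' := h
      rw [← Finset.sdiff_union_inter x S', ← Finset.sdiff_union_inter x' S', h', hx1, hx2]
    rw [← hinj]
    apply hLO2 ι (s \ S') w (w0 + ∑ i ∈ y, w i)
    · intro i hi
      exact hw i (Finset.mem_sdiff.1 hi).1
    · intro z hz
      obtain ⟨x, hx, rfl⟩ := Finset.mem_image.1 hz
      have hx0 := (Finset.mem_filter.1 hx).1
      have hx1 : x ∩ S' = y := (Finset.mem_filter.1 hx).2
      refine ⟨Finset.sdiff_subset_sdiff (hX x hx0).1 (le_refl _), ?_⟩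
      have h4 := hsum w x
      rw [hx1] at h4
      have h5 : w0 + ∑ i ∈ y, w i + ∑ i ∈ x \ S', w i = w0 + ∑ i ∈ x, w i := by
        rw [← h4]; ring
      rw [h5]
      exact (hX x hx0).2.1
  have h1 := Finset.card_le_mul_card_image X (SS (s \ S').card) hF
  have h2 : X.card ≤ SS (s \ S').card * M0 S'.card := le_trans h1 (Nat.mul_le_mul_left _ hY)
  have h3 := hBIN S'.card ((s \ S').card + 1) ht (by omega)
  have h4 : (s \ S').card + S'.card = s.card := by
    exact Finset.card_sdiff_add_card_eq_card hS's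
  have h5 : S'.card + ((s \ S').card + 1) = s.card + 1 := by omega
  rw [h5] at h3
  have h6 : M0 (s.card + 1) = SS s.card := rfl
  have h7 : M0 ((s \ S').card + 1) = SS (s \ S').card := rfl
  rw [h6, h7] at h3
  calc 3 * X.card ≤ 3 * (SS (s \ S').card * M0 S'.card) := Nat.mul_le_mul_left _ h2
    _ = 3 * (M0 S'.card * SS (s \ S').card) := by ring
    _ ≤ 2 * SS s.card := h3

end Pool.Agent.W726.AHC
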